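import Pool.Agent.Work.MP_46c206_al.Visual
import Pool.Agent.Work.MP_46c206_al.Dim

namespace Pool.Agent.Results.MP_46c206_al.DimZero

open Pool.Agent.Work.MP_46c206_al Pool.Agent.QIB

/-- Let the free group `F_r`, `r ≥ 2`, be a normal subgroup of a word-hyperbolic group `G`. Then
the Cannon-Thurston map `∂F_r → ∂G` exists, is unique, and the endpoint set of its lamination has
Hausdorff dimension zero for the visual metric of every metric simplicial tree with a free action,
every base vertex and every parameter `a > 1`. -/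
theorem result (r : ℕ) (hr : 2 ≤ r) (G : Type) [Group G] (S : Finset G)
    (hS : Subgroup.closure (S : Set G) = ⊤) (hG : IsHyp (wlen (S : Set G)))
    (ι : FreeGroup (Fin r) →* G) (hι : Function.Injective ι) (hn : ι.range.Normal) :
    ∃ c : Bd (FreeGroup.norm : FreeGroup (Fin r) → ℕ) → Bd (wlen (S : Set G)),
      IsCT FreeGroup.norm (wlen (S : Set G)) ι c ∧
      (∀ c', IsCT FreeGroup.norm (wlen (S : Set G)) ι c' → c' = c) ∧
      ∀ (T : FreeTree (FreeGroup (Fin r))) (x : T.V) (a : ℝ), 1 < a →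
        ∃ m : MetricSpace (Bd (FreeGroup.norm : FreeGroup (Fin r) → ℕ)),
          IsVisual FreeGroup.norm T x a m.dist ∧
            @dimH _ m.toEMetricSpace (endpoints c) = 0 := by
  have : Nontrivial (Fin r) := Fin.nontrivial_iff_two_le.2 hr
  let _ : GSp G := wordGSp hS
  have hd : ∀ x y : G, d x y = wlen (S : Set G) (x⁻¹ * y) := fun _ _ => rfl
  have hinv : ∀ g x y : G, d (g * x) (g * y) = d x y := fun g x y => by
    rw [hd, hd]; congr 1; group
  have hd1 : ∀ g : G, d 1 g = wlen (S : Set G) g := fun g => by rw [hd]; simp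
  have hfin : ∀ n, {g : G | d 1 g ≤ n}.Finite := fun n => by
    simp only [hd1]; exact ball_finite S hS n
  obtain ⟨δ, hδ⟩ := hyp_of_isHyp hS hG
  have hM := mitra hinv hfin hδ hι hn
  obtain ⟨c, hc⟩ := exists_ct hd hM
  refine ⟨c, hc, fun c' hc' => ct_unique hc hc', fun T x a ha => ?_⟩
  obtain ⟨m, hm⟩ := exists_visual_metric T x ha
  obtain ⟨C, θ, hC, h0, h1, hcyl⟩ := visual_cyl T x ha
  refine ⟨m, hm, ?_⟩
  obtain ⟨A, hA⟩ := sphere_count S hS
  refine dimH_eq_zero_of_cover FreeGroup.norm (fun f => d 1 (ι f)) Cyl A (fun n => ?_) C θ hC h0 h1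
    (hcyl _ hm) _ fun p hp E n0 => sublinear hd hδ hG hM hc hp E n0
  obtain ⟨U, h2, h3⟩ := hA n
  refine ⟨U.preimage ι hι.injOn, ?_, fun f hf => Finset.mem_preimage.2 (h3 _ (hd1 _ ▸ hf))⟩
  refine le_trans ?_ h2
  exact Finset.card_le_card_of_injOn ι (fun f hf => Finset.mem_preimage.1 hf) hι.injOn

end Pool.Agent.Results.MP_46c206_al.DimZero
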